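import Pool.Agent.W500.CS.Stm2

set_option autoImplicit false

open MeasureTheory Metric Set Filter Topology
open scoped ComplexConjugate

namespace Pool.Agent.W856.CQ.Potw

open Pool.Agent.H586R3.CT (CT)
open Pool.Agent.W500.CS

lemma abs_log_le (t : ℝ) (ht : 0 ≤ t) : |Real.log t| ≤ t⁻¹ + t := by
  rcases ht.eq_or_lt with h | h
  · rw [← h]; simp
  · have h0 := inv_pos.2 h
    rw [abs_le]
    constructor
    · have := Real.log_le_sub_one_of_pos h0
      rw [Real.log_inv] at this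
      linarith
    · have := Real.log_le_sub_one_of_pos h
      linarith

lemma meas_log : Measurable (fun p : ℂ × ℂ => Real.log ‖p.1 - p.2‖) := by fun_prop

lemma int_log (μ : Measure ℂ) [IsFiniteMeasure μ] {R : ℝ} (hR : μ (closedBall 0 R)ᶜ = 0) (r : ℝ) :
    Integrable (fun p : ℂ × ℂ => Real.log ‖p.1 - p.2‖) ((volume.restrict (ball 0 r)).prod μ) := by
  haveI : IsFiniteMeasure (volume.restrict (ball (0:ℂ) r)) :=
    ⟨by rw [Measure.restrict_apply_univ]; exact measure_ball_lt_top⟩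
  have h1 := (Pool.Agent.H586R3.CT.integrable_ker μ 0 r).norm
  have h2 : Integrable (fun p : ℂ × ℂ => ‖(p.1 - p.2)⁻¹‖ + (r + R))
      ((volume.restrict (ball 0 r)).prod μ) := h1.add (integrable_const _)
  refine Integrable.mono' h2 meas_log.aestronglyMeasurable ?_
  have h3 : ∀ᵐ z ∂(volume.restrict (ball (0:ℂ) r)), z ∈ ball (0:ℂ) r :=
    ae_restrict_mem measurableSet_ball
  have h4 : ∀ᵐ z ∂μ, z ∈ closedBall (0:ℂ) R := by
    rw [ae_iff]; exact hR
  have h5 := (Measure.quasiMeasurePreserving_fst (μ := volume.restrict (ball (0:ℂ) r))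
    (ν := μ)).ae h3
  have h6 := (Measure.quasiMeasurePreserving_snd (μ := volume.restrict (ball (0:ℂ) r))
    (ν := μ)).ae h4
  filter_upwards [h5, h6] with p hp1 hp2
  rw [mem_ball_zero_iff] at hp1
  rw [mem_closedBall_zero_iff] at hp2
  rw [Real.norm_eq_abs]
  refine (abs_log_le _ (norm_nonneg _)).trans ?_
  rw [norm_inv]
  have := norm_sub_le p.1 p.2
  linarith

lemma int_mul {μ : Measure ℂ} [IsFiniteMeasure μ] {F : ℂ × ℂ → ℝ}
    (hF : ∀ r, Integrable F ((volume.restrict (ball 0 r)).prod μ)) {g : ℂ → ℝ}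
    (hg : Continuous g) (hc : HasCompactSupport g) :
    Integrable (fun p : ℂ × ℂ => F p * g p.1) (volume.prod μ) := by
  obtain ⟨M, hM⟩ := hc.exists_bound_of_continuous hg
  obtain ⟨R, hR⟩ := (hc.isCompact.isBounded).subset_ball (0 : ℂ)
  have h1 := (hF R).bdd_mul (c := M) (f := fun p : ℂ × ℂ => g p.1)
    (by apply Continuous.aestronglyMeasurable; exact hg.comp continuous_fst)
    (Eventually.of_forall fun p => hM _)
  have h2 : Integrable (((ball 0 R) ×ˢ univ).indicator
        (fun p : ℂ × ℂ => g p.1 * F p)) (volume.prod μ) := by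
      rw [integrable_indicator_iff (measurableSet_ball.prod MeasurableSet.univ), IntegrableOn,
        ← Measure.prod_restrict, Measure.restrict_univ]
      exact h1
  refine h2.congr (Eventually.of_forall fun p => ?_)
  by_cases hp : p ∈ (ball 0 R) ×ˢ (univ : Set ℂ)
  · rw [indicator_of_mem hp, mul_comm]
  · rw [indicator_of_notMem hp]
    have hp1 : p.1 ∉ ball (0:ℂ) R := fun h => hp ⟨h, mem_univ _⟩
    have : p.1 ∉ tsupport g := fun h => hp1 (hR h)
    show (0 : ℝ) = F p * g p.1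
    rw [image_eq_zero_of_notMem_tsupport this, mul_zero]

lemma locInt_inv : LocallyIntegrable (fun z : ℂ => ‖z‖⁻¹) volume := by
  intro z
  refine ⟨ball 0 (‖z‖ + 1), isOpen_ball.mem_nhds (by simp), ?_⟩
  refine ⟨(by fun_prop : Measurable fun z : ℂ => ‖z‖⁻¹).aestronglyMeasurable, ?_⟩
  rw [hasFiniteIntegral_iff_enorm]
  refine lt_of_le_of_lt (le_of_eq ?_) (Pool.Agent.H586R3.CT.lintegral_inv_ball_lt_top (‖z‖ + 1))
  apply lintegral_congr
  intro w
  rw [← norm_inv, enorm_norm]

/-- the regularised logarithm -/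
noncomputable def fe (e : ℝ) (z : ℂ) : ℝ := (1/2) * Real.log (‖z‖^2 + e^2)

lemma fe_hasFDerivAt {e : ℝ} (he : 0 < e) (z : ℂ) :
    HasFDerivAt (fe e) (gr (conj z / ((‖z‖^2 + e^2 : ℝ) : ℂ))) z := by
  have hN : 0 < ‖z‖^2 + e^2 := by positivity
  have h1 : HasFDerivAt (fun z : ℂ => ‖z‖^2) (2 • innerSL ℝ z) z :=
    (hasStrictFDerivAt_norm_sq z).hasFDerivAt
  have h2 := ((h1.add_const (e^2)).log hN.ne').const_mul (1/2)
  refine h2.congr_fderiv ?_
  apply ContinuousLinearMap.ext
  intro v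
  have e1 : gr (conj z / ((‖z‖^2 + e^2 : ℝ) : ℂ)) v =
      (v.re * z.re + v.im * z.im) / (‖z‖^2 + e^2) := by
    rw [gr_apply, div_mul_eq_mul_div, Complex.div_ofReal_re]
    simp
    ring
  rw [e1]
  simp [Complex.inner]
  field_simp

lemma fe_parts {e : ℝ} (he : 0 < e) {ψ : ℂ → ℝ} (hψ : ContDiff ℝ 1 ψ) (hc : HasCompactSupport ψ)
    (v : ℂ) : ∫ z, fe e z * fderiv ℝ ψ z v =
      - ∫ z, (conj z / ((‖z‖^2 + e^2 : ℝ) : ℂ) * v).re * ψ z := by
  have hd : Differentiable ℝ (fe e) := fun z => (fe_hasFDerivAt he z).differentiableAt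
  have hfc : Continuous (fe e) := hd.continuous
  have hψc : Continuous ψ := hψ.continuous
  have hfd : ∀ z, fderiv ℝ (fe e) z v = (conj z / ((‖z‖^2 + e^2 : ℝ) : ℂ) * v).re := by
    intro z
    rw [(fe_hasFDerivAt he z).fderiv, gr_apply]
  have hN : ∀ z : ℂ, ((‖z‖^2 + e^2 : ℝ) : ℂ) ≠ 0 := by
    intro z
    have hN : 0 < ‖z‖^2 + e^2 := by positivity
    exact_mod_cast hN.ne'
  have hcd : Continuous fun z => (conj z / ((‖z‖^2 + e^2 : ℝ) : ℂ) * v).re := by
    apply Complex.continuous_re.comp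
    apply Continuous.mul _ continuous_const
    apply Continuous.div Complex.continuous_conj _ hN
    apply Complex.continuous_ofReal.comp
    fun_prop
  have hψd : Continuous fun z => fderiv ℝ ψ z v :=
    (hψ.continuous_fderiv (by norm_num)).clm_apply continuous_const
  have hψs : HasCompactSupport fun z => fderiv ℝ ψ z v :=
    (hc.fderiv ℝ).comp_left (g := fun L : ℂ →L[ℝ] ℝ => L v) (by simp)
  have h1 := integral_mul_fderiv_eq_neg_fderiv_mul_of_integrable (μ := (volume : Measure ℂ))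
    (f := fe e) (g := ψ) (v := v)
    (by
      simp_rw [hfd]
      exact (hcd.mul hψc).integrable_of_hasCompactSupport hc.mul_left)
    ((hfc.mul hψd).integrable_of_hasCompactSupport hψs.mul_left)
    ((hfc.mul hψc).integrable_of_hasCompactSupport hc.mul_left)
    (fun x _ => hd x) (fun x _ => hψ.differentiable (by norm_num) x)
  rw [h1]
  simp_rw [hfd]

lemma abs_fe_le {e : ℝ} (he : 0 < e) (he1 : e ≤ 1) {z : ℂ} (hz : z ≠ 0) :
    |fe e z| ≤ ‖z‖⁻¹ + ‖z‖^2 := by
  have ht : 0 < ‖z‖ := norm_pos_iff.2 hz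
  have hN : 0 < ‖z‖^2 + e^2 := by positivity
  have h0 := inv_pos.2 ht
  have h1 := Real.log_le_sub_one_of_pos h0
  rw [Real.log_inv] at h1
  have h2 := Real.log_le_sub_one_of_pos hN
  have h3 : Real.log (‖z‖^2) ≤ Real.log (‖z‖^2 + e^2) :=
    Real.log_le_log (by positivity) (by nlinarith)
  rw [Real.log_pow] at h3
  push_cast at h3
  unfold fe
  rw [abs_le]
  constructor
  · nlinarith [sq_nonneg ‖z‖]
  · nlinarith [sq_nonneg ‖z‖]

lemma fixed0 {ψ : ℂ → ℝ} (hψ : ContDiff ℝ 1 ψ) (hc : HasCompactSupport ψ) (v : ℂ) :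
    ∫ z : ℂ, Real.log ‖z‖ * fderiv ℝ ψ z v = - ∫ z : ℂ, (z⁻¹ * v).re * ψ z := by
  have hψc : Continuous ψ := hψ.continuous
  have hψd : Continuous fun z => fderiv ℝ ψ z v :=
    (hψ.continuous_fderiv (by norm_num)).clm_apply continuous_const
  have hψs : HasCompactSupport fun z => fderiv ℝ ψ z v :=
    (hc.fderiv ℝ).comp_left (g := fun L : ℂ →L[ℝ] ℝ => L v) (by simp)
  have hne : ∀ᵐ z : ℂ, z ≠ 0 := by
    rw [ae_iff]; simp
  set en : ℕ → ℝ := fun n => 1 / ((n : ℝ) + 1) with hen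
  have hen0 : ∀ n, 0 < en n := fun n => by rw [hen]; positivity
  have hen1 : ∀ n, en n ≤ 1 := fun n => by
    rw [hen]
    show 1 / ((n : ℝ) + 1) ≤ 1
    rw [div_le_one (by positivity)]
    have : (0:ℝ) ≤ n := Nat.cast_nonneg n
    linarith
  have hent : Tendsto en atTop (𝓝 0) := tendsto_one_div_add_atTop_nhds_zero_nat
  have hNt : ∀ z : ℂ, Tendsto (fun n => ‖z‖^2 + en n ^2) atTop (𝓝 (‖z‖^2)) := by
    intro z
    have := (hent.pow 2).const_add (‖z‖^2)
    simpa using this
  have hL : Tendsto (fun n => ∫ z, fe (en n) z * fderiv ℝ ψ z v) atTop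
      (𝓝 (∫ z : ℂ, Real.log ‖z‖ * fderiv ℝ ψ z v)) := by
    apply tendsto_integral_of_dominated_convergence
      (fun z => (‖z‖⁻¹ + ‖z‖^2) * |fderiv ℝ ψ z v|)
    · intro n
      have hd : Differentiable ℝ (fe (en n)) := fun z =>
        (fe_hasFDerivAt (hen0 n) z).differentiableAt
      exact (hd.continuous.mul hψd).aestronglyMeasurable
    · have h1 : LocallyIntegrable (fun z : ℂ => ‖z‖⁻¹ + ‖z‖^2) volume := by
        apply locInt_inv.add
        have : Continuous fun z : ℂ => ‖z‖^2 := by fun_prop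
        exact this.locallyIntegrable
      exact h1.integrable_smul_right_of_hasCompactSupport (g := fun z => |fderiv ℝ ψ z v|)
        hψd.abs (hψs.comp_left (g := fun x : ℝ => |x|) (by simp))
    · intro n
      filter_upwards [hne] with z hz
      rw [norm_mul, Real.norm_eq_abs, Real.norm_eq_abs]
      exact mul_le_mul_of_nonneg_right (abs_fe_le (hen0 n) (hen1 n) hz) (abs_nonneg _)
    · filter_upwards [hne] with z hz
      apply Tendsto.mul_const
      have hz2 : ‖z‖^2 ≠ 0 := by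
        have := norm_pos_iff.2 hz
        positivity
      have h2 := ((Real.continuousAt_log hz2).tendsto.comp (hNt z)).const_mul (1/2)
      have h3 : (1/2) * Real.log (‖z‖^2) = Real.log ‖z‖ := by
        rw [Real.log_pow]; push_cast; ring
      rw [h3] at h2
      exact h2
  have hRt : Tendsto (fun n => ∫ z, (conj z / ((‖z‖^2 + en n ^2 : ℝ) : ℂ) * v).re * ψ z) atTop
      (𝓝 (∫ z : ℂ, (z⁻¹ * v).re * ψ z)) := by
    apply tendsto_integral_of_dominated_convergence
      (fun z => ‖z‖⁻¹ * (‖v‖ * |ψ z|))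
    · intro n
      have : Measurable (fun z : ℂ => (conj z / ((‖z‖^2 + en n ^2 : ℝ) : ℂ) * v).re) := by
        apply Complex.measurable_re.comp
        apply Measurable.mul_const
        apply Measurable.div Complex.continuous_conj.measurable
        apply Complex.measurable_ofReal.comp
        fun_prop
      exact (this.mul hψc.measurable).aestronglyMeasurable
    · exact locInt_inv.integrable_smul_right_of_hasCompactSupport (g := fun z => ‖v‖ * |ψ z|)
        (continuous_const.mul hψc.abs)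
        ((hc.comp_left (g := fun x : ℝ => |x|) (by simp)).mul_left)
    · intro n
      filter_upwards [hne] with z hz
      have ht : 0 < ‖z‖ := norm_pos_iff.2 hz
      rw [norm_mul, Real.norm_eq_abs, Real.norm_eq_abs, ← mul_assoc]
      apply mul_le_mul_of_nonneg_right _ (abs_nonneg _)
      refine (Complex.abs_re_le_norm _).trans ?_
      rw [norm_mul, norm_div, RCLike.norm_conj, Complex.norm_real, Real.norm_eq_abs,
        abs_of_pos (by positivity)]
      apply mul_le_mul_of_nonneg_right _ (norm_nonneg _)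
      rw [div_le_iff₀ (by positivity)]
      have : ‖z‖⁻¹ * (‖z‖^2 + en n ^2) = ‖z‖ + ‖z‖⁻¹ * en n ^2 := by
        field_simp
      rw [this]
      have : 0 ≤ ‖z‖⁻¹ * en n ^2 := by positivity
      linarith
    · filter_upwards [hne] with z hz
      apply Tendsto.mul_const
      have ht : 0 < ‖z‖ := norm_pos_iff.2 hz
      have hz2 : ((‖z‖^2 : ℝ) : ℂ) ≠ 0 := by
        have : ‖z‖^2 ≠ 0 := by positivity
        exact_mod_cast this
      have h2 : Tendsto (fun n => ((‖z‖^2 + en n ^2 : ℝ) : ℂ)) atTop (𝓝 ((‖z‖^2 : ℝ) : ℂ)) :=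
        (Complex.continuous_ofReal.tendsto _).comp (hNt z)
      have h3 : Tendsto (fun n => conj z / ((‖z‖^2 + en n ^2 : ℝ) : ℂ) * v) atTop
          (𝓝 (z⁻¹ * v)) := by
        apply Tendsto.mul_const
        have h4 : z⁻¹ = conj z / ((‖z‖^2 : ℝ) : ℂ) := by
          rw [Complex.inv_def, div_eq_mul_inv, Complex.normSq_eq_norm_sq]
          push_cast
          rfl
        rw [h4]
        exact Tendsto.div tendsto_const_nhds h2 hz2
      exact (Complex.continuous_re.tendsto _).comp h3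
  have heq : (fun n => ∫ z, fe (en n) z * fderiv ℝ ψ z v) =
      fun n => - ∫ z, (conj z / ((‖z‖^2 + en n ^2 : ℝ) : ℂ) * v).re * ψ z :=
    funext fun n => fe_parts (hen0 n) hψ hc v
  rw [heq] at hL
  exact tendsto_nhds_unique hL hRt.neg

lemma fixed (ζ : ℂ) {ψ : ℂ → ℝ} (hψ : ContDiff ℝ 1 ψ) (hc : HasCompactSupport ψ) (v : ℂ) :
    ∫ z : ℂ, Real.log ‖z - ζ‖ * fderiv ℝ ψ z v = - ∫ z : ℂ, ((z - ζ)⁻¹ * v).re * ψ z := by
  have h1 := fixed0 (ψ := fun z => ψ (z + ζ)) (hψ.comp (by fun_prop))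
    (hc.comp_homeomorph (Homeomorph.addRight ζ)) v
  rw [← integral_add_right_eq_self _ ζ, ← integral_add_right_eq_self
    (fun z : ℂ => ((z - ζ)⁻¹ * v).re * ψ z) ζ]
  simp only [add_sub_cancel_right]
  rw [← h1]
  congr 1
  funext z
  rw [fderiv_comp_add_right]

theorem main : S_POTW := by
  intro μ _ ⟨R, hR⟩
  refine ⟨fun z => ∫ ζ, Real.log ‖z - ζ‖ ∂μ, ?_, ?_, ?_⟩
  · exact (meas_log.stronglyMeasurable.integral_prod_right').measurable
  · intro z
    refine ⟨ball 0 (‖z‖ + 1), isOpen_ball.mem_nhds (by simp), ?_⟩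
    exact (int_log μ hR (‖z‖ + 1)).integral_prod_left
  · intro ψ hψ hc v
    have hψc : Continuous ψ := hψ.continuous
    have hψd : Continuous fun z => fderiv ℝ ψ z v :=
      (hψ.continuous_fderiv (by norm_num)).clm_apply continuous_const
    have hψs : HasCompactSupport fun z => fderiv ℝ ψ z v :=
      (hc.fderiv ℝ).comp_left (g := fun L : ℂ →L[ℝ] ℝ => L v) (by simp)
    have hi1 : Integrable (fun p : ℂ × ℂ => Real.log ‖p.1 - p.2‖ * fderiv ℝ ψ p.1 v)
        (volume.prod μ) := int_mul (fun r => int_log μ hR r) hψd hψs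
    have hker : ∀ r, Integrable (fun p : ℂ × ℂ => ((p.1 - p.2)⁻¹ * v).re)
        ((volume.restrict (ball 0 r)).prod μ) := fun r =>
      ((Pool.Agent.H586R3.CT.integrable_ker μ 0 r).mul_const v).re
    have hi2 : Integrable (fun p : ℂ × ℂ => ((p.1 - p.2)⁻¹ * v).re * ψ p.1)
        (volume.prod μ) := int_mul hker hψc hc
    calc ∫ z, (∫ ζ, Real.log ‖z - ζ‖ ∂μ) * fderiv ℝ ψ z v
        = ∫ z, ∫ ζ, Real.log ‖z - ζ‖ * fderiv ℝ ψ z v ∂μ := by
          congr 1
          funext z
          rw [integral_mul_const]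
      _ = ∫ ζ, ∫ z, Real.log ‖z - ζ‖ * fderiv ℝ ψ z v ∂volume ∂μ := integral_integral_swap hi1
      _ = ∫ ζ, - ∫ z, ((z - ζ)⁻¹ * v).re * ψ z ∂volume ∂μ := by
          congr 1
          funext ζ
          exact fixed ζ hψ hc v
      _ = - ∫ ζ, ∫ z, ((z - ζ)⁻¹ * v).re * ψ z ∂volume ∂μ := integral_neg _
      _ = - ∫ z, ∫ ζ, ((z - ζ)⁻¹ * v).re * ψ z ∂μ :=
          congrArg Neg.neg (integral_integral_swap hi2).symm
      _ = - ∫ z, (CT μ z * v).re * ψ z := by
          congr 1
          apply integral_congr_ae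
          filter_upwards [Pool.Agent.H586R3.CT.ae_integrable μ] with z hz
          rw [integral_mul_const]
          congr 1
          have h1 : ∫ ζ, ((z - ζ)⁻¹ * v).re ∂μ = (∫ ζ, (z - ζ)⁻¹ * v ∂μ).re :=
            integral_re (hz.mul_const v)
          rw [h1, integral_mul_const]
          rfl

end Pool.Agent.W856.CQ.Potw
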